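import Mathlib
import Pool.Agent.H849Z.Tk.Defs
import Pool.Agent.H849Z.Tk.Main

set_option autoImplicit false

namespace Pool.Agent.Results.MP_a0a263_lc.ATopNotDiamond

open Pool.Agent.H849Z.TkDefs

/-- There is a Tukey-top ultrafilter on the natural numbers for which diamond-minus fails. -/
theorem result : ∃ U : Ultrafilter ℕ, TukeyTop U ∧ ¬ DiamondMinus U :=
  Pool.Agent.H849Z.Tk.main

end Pool.Agent.Results.MP_a0a263_lc.ATopNotDiamond
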